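import Pool.Agent.V11168.Pair.Strict

/-!
# Abundance for klt pairs on quotients: comparison with the cover

Let `Z → B` be a dominant rational map of projective varieties, `dim B = d`, `dim Z = d + (r + 1)`,
with the function fields `M ⊂ L` (`B` may be a point), `Δ_B` a divisor on `B` with multiplicities at
most `1` and `κ (K_B + Δ_B) ≥ 0`, `V` a space of holomorphic 1-forms on `Z` (regular along all prime
divisors over `Z`; they need not be closed, and `B` and `Δ_B` are not assumed to be of general type),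
`r + 1` of which are linearly independent relative to `B`, and `G` a finite group of birational
automorphisms of `Z` which preserves `V`; it need not preserve the map to `B`. Let `(X, Δ)` be a klt
pair, `X` birational to `Z / G`; the function field of `X` is the field of invariants `fixedField G`.
`Δ` is given by its multiplicities `δ v = max (0, -a (v, X, Δ))` along all prime divisors `v` over `X`,
where `a (v, X, Δ)` is the discrepancy. Then `h⁰ (⌊m (K_X + Δ)⌋)` is the dimension of the space of the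
`m`-fold pluricanonical forms on the function field with pole order at most `m δ v` at all `v`
(`PairSec`).

`Δ_Z` is the divisor on `Z` with the multiplicity `δ' w = max (0, 1 - e (1 - δ v))` along the prime
divisor `w` with ramification index `e` over the prime divisor `v` over `X` (`IsPull`): the effective
part of `q^* (K_X + Δ) - K_Z`, where `q : Z → X`.

* `BaseBound`: if the prime divisor `w` over `Z` is not ramified over the prime divisor `v` over `X`,
  and lies over the prime divisor `u` over `B` with multiplicity `c`, then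
  `1 - δ v ≤ c (1 - δB u)`; for `Δ_B = 0` this holds always.
* `ReidTaiStrict` (strict weighted condition of Reid-Tai type): if `w` has ramification index `e ≥ 2`
  over `v`, `g` in `G`, of order `e`, fixes `w` pointwise, and `θ 1, ..., θ (r + 1)` in `V`, independent
  relative to `B`, are eigenvectors of `g` with the eigenvalues `ζ ^ a i`, `0 ≤ a i < e`, `ζ` a primitive
  `e`-th root of unity, then `c (1 - δB u) + a 1 + ... + a (r + 1) ≥ e (1 - δ v)`, and even
  `≥ e (1 - δ v) + ε` if `e (1 - δ v) > 1` (that is, if `q^* (K_X + Δ) - K_Z` is negative along `w`);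
  here `c = 0` if `w` dominates `B`, and `w` lies over `u` with multiplicity `c` otherwise.
-/

set_option autoImplicit false

open FF IntermediateField Pool.Agent.W619.PQ Pool.Agent.W619.TW Pool.Agent.W619.Y Pool.Agent.Y173.QA
  Pool.Agent.Y173.QM Pool.Agent.Y174 Pool.Agent.V11168.Rel Pool.Agent.V11168.Pair

namespace Pool.Agent.Results.MP_9a2ae6_ag.ReidTaiComparison

/-- `κ (K_X + Δ) = ν (K_X + Δ) = a`: for some `m ≥ 1` there are `h + 1` sections of `m (K_X + Δ)` whose
`h` ratios are algebraically independent (`PairKod`) exactly for `h ≤ a`; and for every divisor `A`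
there is `C` with `h⁰ (m (K_X + Δ) + A) ≤ C m ^ h` for all `m ≥ 1` (`PairNum`) exactly for `h ≥ a`. -/
def HasAbundance (k K : Type) [Field k] [Field K] [Algebra k K] (n : ℕ) (δ : Place k K → ℝ)
    (a : ℕ) : Prop :=
  ∀ h, (PairKod k K n δ h ↔ h ≤ a) ∧ (PairNum k K n δ h ↔ a ≤ h)

/-- **Theorem.** Let `Z → B`, `M ⊂ L`, `Δ_B`, `V`, `G`, `(X, Δ)` and `Δ_Z` be as above. Then
`κ (K_X + Δ) = κ (K_Z + Δ_Z)` and `ν (K_X + Δ) ≤ ν (K_Z + Δ_Z)`. So if `κ = ν` holds for `(Z, Δ_Z)`, then
it holds for `(X, Δ)`. -/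
theorem result {L : Type} [Field L] [Algebra ℂ L] [Algebra.EssFiniteType ℂ L]
    -- the base
    (M : IntermediateField ℂ L) [Algebra.EssFiniteType ℂ M] {d r : ℕ}
    (hM : Algebra.trdeg ℂ M = d) (hn : Algebra.trdeg ℂ L = (d + (r + 1) : ℕ))
    {δB : Place ℂ M → ℝ} (hB : ∀ u, δB u ≤ 1) (hB0 : PairKod ℂ M d δB 0)
    -- the group and the pairs
    (G : Subgroup (L ≃ₐ[ℂ] L)) [Finite G]
    {δ : Place ℂ (fixedField G) → ℝ} (hδ0 : ∀ v, 0 ≤ δ v) (hδ1 : ∀ v, δ v < 1)
    {δ' : Place ℂ L → ℝ} (hδ' : IsPull δ δ')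
    -- the forms
    (V : Submodule ℂ (Derivation ℂ L L →ₗ[L] L)) (hreg : ∀ θ ∈ V, IsRegForm (d + (r + 1)) θ)
    (hstab : ∀ g ∈ G, ∀ θ ∈ V, ∃ θ' ∈ V, IsImage g θ θ')
    (hind : ∃ θ : Fin (r + 1) → Derivation ℂ L L →ₗ[L] L, (∀ i, θ i ∈ V) ∧
      IndepOver (m := d) M θ)
    -- the conditions on the divisors
    (hBX : BaseBound (d + (r + 1)) G M (fun _ => False) δ δB)
    {ε : ℝ} (hε : 0 < ε) (hRT : ReidTaiStrict d (r + 1) G M V (fun _ => False) δ δB ε) :
    (∀ h, PairKod ℂ (fixedField G) (d + (r + 1)) δ h ↔ PairKod ℂ L (d + (r + 1)) δ' h) ∧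
      (∀ h, PairNum ℂ L (d + (r + 1)) δ' h → PairNum ℂ (fixedField G) (d + (r + 1)) δ h) ∧
      ∀ a, HasAbundance ℂ L (d + (r + 1)) δ' a →
        HasAbundance ℂ (fixedField G) (d + (r + 1)) δ a := by
  have _ := hδ1
  have hfd : FiniteDimensional (fixedField G) L := fd_fixed G
  obtain ⟨θ, hθ, hθi⟩ := hind
  have hnK : Algebra.trdeg ℂ (fixedField G) = (d + (r + 1) : ℕ) := trdeg_fixed G hn
  obtain ⟨zK, hzK⟩ := Pool.Agent.W636.PG.exists_basis ℂ (fixedField G) _ hnK
  have hess : Algebra.EssFiniteType ℂ (fixedField G) :=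
    Pool.Agent.Y174.ess_down (L := L) inferInstance zK hzK
  have hlog : ∀ θ ∈ V, IsLogForm (d + (r + 1)) (BdOn fun _ : Place ℂ (fixedField G) => False) θ :=
    fun θ hθ w hw D hD => hreg θ hθ w hw D (hD.1 fun ⟨_, _, _, h⟩ => h)
  have h1 : ∀ h, PairKod ℂ (fixedField G) (d + (r + 1)) δ h ↔
      PairKod ℂ L (d + (r + 1)) δ' h := fun h =>
    ⟨fun h2 => pair_up hess hnK hδ' h2, fun h2 => transfer hM hn G hδ0 (Bd := fun _ => False)
      (fun _ h => h.elim) hlog hstab hB hBX hε hRT hθ hθi hB0 hδ' h2⟩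
  have h2 : ∀ h, PairNum ℂ L (d + (r + 1)) δ' h → PairNum ℂ (fixedField G) (d + (r + 1)) δ h :=
    fun h h3 => pair_num hess hnK hδ' h3
  refine ⟨h1, h2, fun a ha h => ?_⟩
  have h3 : PairKod ℂ (fixedField G) (d + (r + 1)) δ a := (h1 a).2 ((ha a).1.2 le_rfl)
  have h4 : PairNum ℂ (fixedField G) (d + (r + 1)) δ a := h2 a ((ha a).2.2 le_rfl)
  exact ⟨⟨fun h5 => pair_le h5 h4, fun h5 => pairKod_mono h5 h3⟩,
    ⟨fun h5 => pair_le h3 h5, fun h5 => pairNum_mono h5 h4⟩⟩

end Pool.Agent.Results.MP_9a2ae6_ag.ReidTaiComparison
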